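import Pool.Agent.Q297.ProjAlg

/-!
# The number of isomorphism types of projective algebras generated by `k` plane sets

The definitions (`Plane`, the axes `AX` and `AY`, the projections `pr1` and `pr2`, the direct
product `dprod`, `IsProjAlg`, `IsIso`, `Isomorphic`, `gen`, `GenCond`, `isoSetoid`) are in
`Pool/Agent/Q297/ProjAlg.lean`.

For `N ⊆ ℕ` let `SN N` consist of `(1, 0)`, of the points `(n + 1, n + 1)` and `(n + 1, n + 2)` for
`n ∈ ℕ`, and of the points `(0, n + 3)` for `n ∈ N`. There are operations `t_n`, composed of the
Boolean operations, the projections and the direct product and not depending on `N`, such that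
`t_n (SN N)` is `SN N ∩ {(0, n + 3)}`. So the image of `SN N` under an isomorphism determines `N`,
and each isomorphism type belongs to at most countably many `N`.
-/

set_option autoImplicit false

namespace Pool.Agent.Results.MP_71be7b_lc.NumberOfTypes

open Pool.Agent.Q297.ProjAlg

/-- For each `k ≥ 1` there are exactly `2 ^ ℵ₀` isomorphism types of projective algebras generated
by `k` subsets of the plane; the number is the same if the `k` generating sets are required to be
pairwise distinct. -/
theorem result (k : ℕ) (hk : 1 ≤ k) :
    Cardinal.mk (Quotient (isoSetoid k fun _ => True)) = Cardinal.continuum ∧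
    Cardinal.mk (Quotient (isoSetoid k fun S => Function.Injective S)) = Cardinal.continuum := by
  obtain ⟨m, rfl⟩ : ∃ m, k = m + 1 := ⟨k - 1, by omega⟩
  exact ⟨le_antisymm (mk_le _ _) (le_mk _ _ fun N => ⟨fun _ => SN N, trivial, SN_mem_gen m N⟩),
    le_antisymm (mk_le _ _) (le_mk _ _ fun N => exists_injective m N)⟩

end Pool.Agent.Results.MP_71be7b_lc.NumberOfTypes
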